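import Pool.Agent.H59.L.T374d34.N483.KM.Stm1
import Pool.Agent.H59.L.S8.R755.KF.M

/-!
# Sections: fibres and the whole body
-/

set_option autoImplicit false

namespace Pool.Agent.N483.KM

open MeasureTheory Set Filter Topology
open scoped ENNReal InnerProductSpace
open Pool.Agent.H888R2.KT (gs gc)
open Pool.Agent.R754.KG (E un sl Rv un_prob un_lint un_int)
open Pool.Agent.R755.KF (BL PB PW zn ey e2 om sd aff PLH PL3 CB lw)
open Pool.Agent.R755.KF.Maux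

variable {N d k : ℕ} {K : Set (E N × E d)}

theorem sv_ne (_h : CB K) {t : E d} (ht : 0 < Rv K t) : volume (sl K t) ≠ 0 := by
  intro h0
  unfold Rv at ht
  rw [h0] at ht
  simp at ht

theorem sv_prob (h : CB K) {t : E d} (ht : 0 < Rv K t) : IsProbabilityMeasure (un (sl K t)) :=
  un_prob (sv_ne h ht) (sl_fin h t)

theorem T_cont (T : E N × E d →ₗ[ℝ] E k) (t : E d) : Continuous fun x : E N => T (x, t) :=
  T.continuous_of_finiteDimensional.comp (by fun_prop)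

theorem lw_prob (h : CB K) (T : E N × E d →ₗ[ℝ] E k) {t : E d} (ht : 0 < Rv K t) :
    IsProbabilityMeasure (lw K T t) := by
  have := sv_prob h ht
  exact Measure.isProbabilityMeasure_map (T_cont T t).measurable.aemeasurable

theorem lw_int (T : E N × E d →ₗ[ℝ] E k) (t : E d) {F : E k → ℝ} (hF : Continuous F) :
    ∫ y, F y ∂(lw K T t) = ∫ x, F (T (x, t)) ∂(un (sl K t)) := by
  unfold lw
  rw [integral_map (T_cont T t).measurable.aemeasurable hF.aestronglyMeasurable]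

theorem sv_int (h : CB K) {t : E d} (ht : 0 < Rv K t) {f : E N → ℝ} (hf : Continuous f) :
    Integrable f (un (sl K t)) := un_int (sv_ne h ht) (sl_bd h t) hf

theorem k_int (h : CB K) {f : E N × E d → ℝ} (hf : Continuous f) : Integrable f (un K) := by
  have h1 : IsFiniteMeasureOnCompacts (volume : Measure (E N × E d)) :=
    inferInstanceAs (IsFiniteMeasureOnCompacts
      (Measure.prod (volume : Measure (E N)) (volume : Measure (E d))))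
  exact un_int h.pos.ne' (bdd h) hf

theorem k_prob (h : CB K) : IsProbabilityMeasure (un K) := un_prob h.pos.ne' (kfin h)

/-- second moment around `a` and variance -/
theorem var_le_mom {X : Type} [MeasurableSpace X] {μ : Measure X} [IsProbabilityMeasure μ]
    {f : X → ℝ} (h1 : Integrable f μ) (h2 : Integrable (fun x => f x ^ 2) μ) (a : ℝ) :
    (∫ x, f x ^ 2 ∂μ) - (∫ x, f x ∂μ) ^ 2 + ((∫ x, f x ∂μ) - a) ^ 2 = ∫ x, (f x - a) ^ 2 ∂μ := by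
  have e : (fun x => (f x - a) ^ 2) = fun x => f x ^ 2 - 2 * a * f x + a ^ 2 := by
    funext x; ring
  have J0 : Integrable (fun x => 2 * a * f x) μ := h1.const_mul _
  have J1 : Integrable (fun x => f x ^ 2 - 2 * a * f x) μ := h2.sub J0
  rw [e, integral_add J1 (integrable_const _), integral_sub h2 J0, integral_const_mul,
    integral_const]
  simp only [probReal_univ, smul_eq_mul, one_mul]
  ring

theorem body_low (h : CB K) (T : E N × E d →ₗ[ℝ] E k) {F : E k → ℝ} (hF : Continuous F)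
    {J : Set (E d)} (hJ : MeasurableSet J) {m c : ℝ} (hm : 0 ≤ m)
    (hJm : ENNReal.ofReal m * volume K ≤ ∫⁻ t in J, volume (sl K t))
    (hpos : ∀ t ∈ J, 0 < Rv K t)
    (hv : ∀ t ∈ J, c ≤ (∫ x, F x ^ 2 ∂(lw K T t)) - (∫ x, F x ∂(lw K T t)) ^ 2) :
    m * c ≤ (∫ z, F (T z) ^ 2 ∂(un K)) - (∫ z, F (T z) ∂(un K)) ^ 2 := by
  have hp := k_prob h
  have hTc : Continuous T := T.continuous_of_finiteDimensional
  have hFT : Continuous fun z => F (T z) := hF.comp hTc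
  obtain ⟨a, ha⟩ : ∃ a, a = ∫ z, F (T z) ∂(un K) := ⟨_, rfl⟩
  have e1 := var_le_mom (k_int h hFT) (k_int h (hFT.pow 2)) a
  rw [← ha] at e1 ⊢
  have e2 : (∫ z, F (T z) ^ 2 ∂(un K)) - a ^ 2 = ∫ z, (F (T z) - a) ^ 2 ∂(un K) := by
    rw [← e1]; ring
  rw [e2]
  have hq : Continuous fun z => (F (T z) - a) ^ 2 := (hFT.sub continuous_const).pow 2
  rw [integral_eq_lintegral_of_nonneg_ae (Eventually.of_forall fun z => sq_nonneg _)
    hq.aestronglyMeasurable]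
  have hfin : ∫⁻ z, ENNReal.ofReal ((F (T z) - a) ^ 2) ∂(un K) ≠ ⊤ := by
    have := (k_int h hq).lintegral_lt_top
    exact this.ne
  rw [← ENNReal.ofReal_le_iff_le_toReal hfin]
  have hv0 : volume K ≠ 0 := h.pos.ne'
  have hvt : volume K ≠ ⊤ := kfin h
  have hmul : ENNReal.ofReal (m * c) * volume K ≤
      volume K * ∫⁻ z, ENNReal.ofReal ((F (T z) - a) ^ 2) ∂(un K) := by
    rw [← un_lint hv0 hvt, fub h _ hq.measurable.ennreal_ofReal]
    calc ENNReal.ofReal (m * c) * volume K = ENNReal.ofReal c * (ENNReal.ofReal m * volume K) := by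
          rw [ENNReal.ofReal_mul hm]; ring
      _ ≤ ENNReal.ofReal c * ∫⁻ t in J, volume (sl K t) := by gcongr
      _ = ∫⁻ t in J, ENNReal.ofReal c * volume (sl K t) := by
          rw [lintegral_const_mul _ (vol_meas h)]
      _ ≤ ∫⁻ t in J, ∫⁻ x in sl K t, ENNReal.ofReal ((F (T (x, t)) - a) ^ 2) := by
          refine setLIntegral_mono' hJ fun t ht => ?_
          have hpt := sv_prob h (hpos t ht)
          have hFt : Continuous fun x => F (T (x, t)) := hF.comp (T_cont T t)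
          rw [un_lint (sv_ne h (hpos t ht)) (sl_fin h t), mul_comm]
          gcongr
          have hqt : Integrable (fun x => (F (T (x, t)) - a) ^ 2) (un (sl K t)) :=
            sv_int h (hpos t ht) ((hFt.sub continuous_const).pow 2)
          rw [← ofReal_integral_eq_lintegral_ofReal hqt
            (Eventually.of_forall fun x => sq_nonneg _)]
          refine ENNReal.ofReal_le_ofReal ?_
          have h1 := hv t ht
          have hF2 : Continuous fun y => F y ^ 2 := hF.pow 2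
          rw [lw_int T t hF2, lw_int T t hF] at h1
          have h2 := var_le_mom (sv_int h (hpos t ht) hFt) (sv_int h (hpos t ht) (hFt.pow 2)) a
          have h3 := sq_nonneg ((∫ x, F (T (x, t)) ∂(un (sl K t))) - a)
          linarith
      _ ≤ ∫⁻ t, ∫⁻ x in sl K t, ENNReal.ofReal ((F (T (x, t)) - a) ^ 2) :=
          setLIntegral_le_lintegral _ _
  rw [mul_comm (volume K)] at hmul
  exact (ENNReal.mul_le_mul_iff_left hv0 hvt).1 hmul

/-! ### moments on the fibres -/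

theorem var_scale (h : CB K) (T : E N × E d →ₗ[ℝ] E k) {s : ℝ} (_hs : 0 ≤ s)
    (hvar : ∀ θ : E k, ‖θ‖ = 1 →
      (∫ z, ⟪T z, θ⟫_ℝ ^ 2 ∂(un K)) - (∫ z, ⟪T z, θ⟫_ℝ ∂(un K)) ^ 2 ≤ s) (v : E k) :
    (∫ z, ⟪T z, v⟫_ℝ ^ 2 ∂(un K)) - (∫ z, ⟪T z, v⟫_ℝ ∂(un K)) ^ 2 ≤ s * ‖v‖ ^ 2 := by
  have hp := k_prob h
  by_cases hv : v = 0
  · subst hv
    simp
  · have hn : 0 < ‖v‖ := norm_pos_iff.2 hv
    have h1 := hvar (‖v‖⁻¹ • v) (by rw [norm_smul, norm_inv, norm_norm, inv_mul_cancel₀ hn.ne'])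
    have e1 : ∀ z, ⟪T z, ‖v‖⁻¹ • v⟫_ℝ = ‖v‖⁻¹ * ⟪T z, v⟫_ℝ := fun z => by
      rw [inner_smul_right]
    simp only [e1, mul_pow, integral_const_mul] at h1
    have h2 : ‖v‖ ^ 2 * (‖v‖⁻¹ ^ 2 * (∫ z, ⟪T z, v⟫_ℝ ^ 2 ∂(un K)) -
        ‖v‖⁻¹ ^ 2 * (∫ z, ⟪T z, v⟫_ℝ ∂(un K)) ^ 2) ≤ ‖v‖ ^ 2 * s :=
      mul_le_mul_of_nonneg_left h1 (by positivity)
    have e2 : ‖v‖ ^ 2 * (‖v‖⁻¹ ^ 2 * (∫ z, ⟪T z, v⟫_ℝ ^ 2 ∂(un K)) -
        ‖v‖⁻¹ ^ 2 * (∫ z, ⟪T z, v⟫_ℝ ∂(un K)) ^ 2) =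
        (∫ z, ⟪T z, v⟫_ℝ ^ 2 ∂(un K)) - (∫ z, ⟪T z, v⟫_ℝ ∂(un K)) ^ 2 := by
      field_simp
    rw [e2] at h2
    linarith

theorem fib_mom (hM : Pool.Agent.R755.KF.S_MOM) (h : CB K) (T : E N × E d →ₗ[ℝ] E k)
    {s S ε : ℝ} (hs : 0 ≤ s) (hS : 0 < S) (hε : 0 < ε) (hmax : ∀ t, Rv K t ≤ S)
    (hvar : ∀ θ : E k, ‖θ‖ = 1 →
      (∫ z, ⟪T z, θ⟫_ℝ ^ 2 ∂(un K)) - (∫ z, ⟪T z, θ⟫_ℝ ∂(un K)) ^ 2 ≤ s)
    {t : E d} (ht : ε * S ≤ Rv K t) (v : E k) :
    (∫ y, ⟪y, v⟫_ℝ ^ 2 ∂(lw K T t)) - (∫ y, ⟪y, v⟫_ℝ ∂(lw K T t)) ^ 2 ≤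
      36 * 4 ^ d / ε * s * ‖v‖ ^ 2 ∧
    ((∫ y, ⟪y, v⟫_ℝ ∂(lw K T t)) - ∫ z, ⟪T z, v⟫_ℝ ∂(un K)) ^ 2 ≤
      36 * 4 ^ d / ε * s * ‖v‖ ^ 2 := by
  have hp := k_prob h
  have hTc : Continuous T := T.continuous_of_finiteDimensional
  have hpt : 0 < Rv K t := lt_of_lt_of_le (by positivity) ht
  have hpr := sv_prob h hpt
  obtain ⟨a, ha⟩ : ∃ a, a = ∫ z, ⟪T z, v⟫_ℝ ∂(un K) := ⟨_, rfl⟩
  have hc1 : Continuous fun z => ⟪T z, v⟫_ℝ := by fun_prop
  have e1 := var_le_mom (k_int h hc1) (k_int h (hc1.pow 2)) a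
  rw [← ha] at e1
  have e2 : ∫ z, (⟪T z, v⟫_ℝ - a) ^ 2 ∂(un K) ≤ s * ‖v‖ ^ 2 := by
    have h2 := var_scale h T hs hvar v
    rw [← ha] at h2
    rw [← e1]
    linarith
  have h1 := hM N d K h S ε t hS hε hmax ht (fun z => ⟪T z, v⟫_ℝ - a) (by fun_prop) (by
    intro z z'
    rw [map_smul, map_add, real_inner_smul_left, inner_add_left]
    ring)
  have hC : 0 ≤ 36 * 4 ^ d / ε := by positivity
  have h2 : ∫ x, (⟪T (x, t), v⟫_ℝ - a) ^ 2 ∂(un (sl K t)) ≤ 36 * 4 ^ d / ε * s * ‖v‖ ^ 2 := by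
    refine h1.trans ?_
    calc _ ≤ 36 * 4 ^ d / ε * (s * ‖v‖ ^ 2) := mul_le_mul_of_nonneg_left e2 hC
      _ = _ := by ring
  have hct : Continuous fun x => ⟪T (x, t), v⟫_ℝ := (T_cont T t).inner continuous_const
  have e3 := var_le_mom (sv_int h hpt hct) (sv_int h hpt (hct.pow 2)) a
  have hcy : Continuous fun y : E k => ⟪y, v⟫_ℝ := by fun_prop
  have hcy2 : Continuous fun y : E k => ⟪y, v⟫_ℝ ^ 2 := by fun_prop
  rw [lw_int T t hcy2, lw_int T t hcy]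
  have h4 := sq_nonneg ((∫ x, ⟪T (x, t), v⟫_ℝ ∂(un (sl K t))) - a)
  have h5 : 0 ≤ (∫ x, ⟪T (x, t), v⟫_ℝ ^ 2 ∂(un (sl K t))) -
      (∫ x, ⟪T (x, t), v⟫_ℝ ∂(un (sl K t))) ^ 2 := by
    have e4 := var_le_mom (sv_int h hpt hct) (sv_int h hpt (hct.pow 2))
      (∫ x, ⟪T (x, t), v⟫_ℝ ∂(un (sl K t)))
    have h6 : 0 ≤ ∫ x, (⟪T (x, t), v⟫_ℝ - ∫ x, ⟪T (x, t), v⟫_ℝ ∂(un (sl K t))) ^ 2
        ∂(un (sl K t)) := integral_nonneg fun x => sq_nonneg _
    rw [← e4] at h6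
    linarith
  constructor
  · linarith
  · rw [← ha]
    linarith

/-! ### Prékopa–Leindler for the fibres -/

theorem lci_lw (h : CB K) (T : E N × E d →ₗ[ℝ] E k) {t : E d} (ht : 0 < Rv K t) :
    LCI (lw K T t) := by
  refine ⟨N, sl K t, T ∘ₗ LinearMap.inl ℝ (E N) (E d), T (0, t),
    Pool.Agent.R755.KF.sl_conv h t, Pool.Agent.R755.KF.sl_comp h t,
    pos_iff_ne_zero.2 (sv_ne h ht), ?_⟩
  unfold lw
  congr 1
  funext x
  simp only [LinearMap.comp_apply, LinearMap.inl_apply]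
  rw [← map_add]
  congr 1
  simp

theorem pb_lw (h : CB K) (T : E N × E d →ₗ[ℝ] E k) : ∃ B : ℝ, 0 ≤ B ∧
    ∀ t, 0 < Rv K t → PB B (lw K T t) := by
  have hTc : Continuous T := T.continuous_of_finiteDimensional
  obtain ⟨B, hB⟩ := (h.comp.image hTc).isBounded.exists_norm_le
  refine ⟨max B 0, le_max_right _ _, fun t ht => ⟨lw_prob h T ht, ?_⟩⟩
  unfold lw
  rw [ae_map_iff (T_cont T t).measurable.aemeasurable
    (measurableSet_le (by fun_prop) (by fun_prop))]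
  unfold un
  refine Measure.ae_smul_measure ?_ _
  refine (ae_restrict_iff' (sl_meas h t)).2 (Eventually.of_forall fun x hx => ?_)
  exact (hB _ (mem_image_of_mem _ hx)).trans (le_max_left _ _)

theorem pl3_mono {νa νb νm : Measure (E k)} {r r' : ℝ} (hr : r ≤ r') (h : PL3 νa νb νm r) :
    PL3 νa νb νm r' := by
  intro f g w hf hg hw hfg
  refine (h f g w hf hg hw hfg).trans ?_
  gcongr

theorem plh_lw (hF : Pool.Agent.R755.KF.S_FIB) (hP : Pool.Agent.R755.KF.S_PLH) (h : CB K)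
    (T : E N × E d →ₗ[ℝ] E k) {S u w η : ℝ} (hS : 0 < S) (hu : 0 < u)
    (hη : 0 ≤ η) (hη1 : w ≤ (1 + η) * u) {J : Set (E d)} (hJ : Convex ℝ J)
    (hJr : ∀ t ∈ J, u * S ≤ Rv K t ∧ Rv K t ≤ w * S) {a b : E d} (ha : a ∈ J) (hb : b ∈ J)
    {τ : ℝ} (hτ : 0 < τ) : PLH τ η (lw K T a) (lw K T b) := by
  obtain ⟨B, hB0, hB⟩ := pb_lw h T
  have hm : (1 / 2 : ℝ) • (a + b) ∈ J := by
    have := hJ ha hb (show (0 : ℝ) ≤ 1 / 2 by norm_num) (show (0 : ℝ) ≤ 1 / 2 by norm_num)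
      (by norm_num)
    rwa [smul_add]
  have uS : 0 < u * S := by positivity
  have pa : 0 < Rv K a := lt_of_lt_of_le uS (hJr a ha).1
  have pb : 0 < Rv K b := lt_of_lt_of_le uS (hJr b hb).1
  have pm : 0 < Rv K ((1 / 2 : ℝ) • (a + b)) := lt_of_lt_of_le uS (hJr _ hm).1
  have h1 := hF N d k K T a b h pa pb pm
  refine hP k τ B η _ _ _ hτ hB0 hη (hB a pa) (hB b pb) (hB _ pm) (pl3_mono ?_ h1)
  rw [div_le_iff₀ (by positivity)]
  have e1 : Rv K ((1 / 2 : ℝ) • (a + b)) ≤ (1 + η) * u * S := by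
    refine (hJr _ hm).2.trans ?_
    exact mul_le_mul_of_nonneg_right hη1 hS.le
  have e2 : (u * S) * (u * S) ≤ Rv K a * Rv K b :=
    mul_le_mul (hJr a ha).1 (hJr b hb).1 uS.le pa.le
  calc Rv K ((1 / 2 : ℝ) • (a + b)) ^ 2 ≤ ((1 + η) * u * S) ^ 2 :=
        pow_le_pow_left₀ pm.le e1 2
    _ = (1 + η) ^ 2 * ((u * S) * (u * S)) := by ring
    _ ≤ (1 + η) ^ 2 * (Rv K a * Rv K b) := mul_le_mul_of_nonneg_left e2 (by positivity)

end Pool.Agent.N483.KM
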