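import Pool.Agent.H59.L.T374d34.N483.KM.StmF
import Pool.Agent.H59.L.T374d34.N483.KM.Sec2
import Pool.Agent.H59.L.S8.R755.KF.All

/-!
# From one large fibre to another one
-/

set_option autoImplicit false

namespace Pool.Agent.N483.KM

open MeasureTheory Set Filter Topology
open scoped ENNReal InnerProductSpace
open Pool.Agent.H888R2.KT (gs gc)
open Pool.Agent.R754.KG (E un sl Rv un_prob un_lint un_int)
open Pool.Agent.R755.KF (BL PB PW zn ey e2 om sd aff PLH PL3 CB lw)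
open Pool.Agent.R755.KF.Maux
open Pool.Agent.Y506.PV (CcW ind)
open Pool.Agent.Y506.RG (EW VW)

variable {N d k : ℕ} {K : Set (E N × E d)}

theorem plh_symm {h η : ℝ} {νa νb : Measure (E k)} (H : PLH h η νa νb) : PLH h η νb νa := by
  obtain ⟨Zm, h0, hi, h1, h2⟩ := H
  refine ⟨Zm, h0, hi, h1, fun y v => ?_⟩
  have h3 := h2 y (-v)
  rw [sub_neg_eq_add, ← sub_eq_add_neg, mul_comm] at h3
  exact h3

/-- the affinity of a measure with itself -/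
theorem aff_self {h B : ℝ} {ν : Measure (E k)} (hh : 0 < h) (hB : 0 ≤ B) (hν : PB B ν) :
    aff h ν ν = 1 := by
  obtain ⟨-, h1, -, -, -, -, h2⟩ := Pool.Agent.R755.KF.zn_ok k h B ν hh hB hν
  unfold aff
  have e1 : ∀ y, Real.sqrt (zn h ν y * zn h ν y) = zn h ν y := fun y =>
    Real.sqrt_mul_self (h1 y).le
  simp only [e1]
  rw [h2]
  exact inv_mul_cancel₀ (Pool.Agent.H888R2.KT.gc_pos (κ := Fin k) h hh).1.ne'

/-- a test function for a measure with a large concentration radius -/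
theorem trf_self (hT : S_TRF) (hL : S_LCI) (p : ℝ) (hp : 0 < p) : ∃ c : ℝ, 0 < c ∧
    ∀ (k : ℕ) (r : ℝ) (ν : Measure (E k)), LCI ν → 0 < r → ¬ CR ν p r →
    ∃ F : E k → ℝ, ContDiff ℝ 1 F ∧ (∀ y, |F y| ≤ 1) ∧ (∀ y, ‖fderiv ℝ F y‖ ≤ 4 / r) ∧
      c ≤ (∫ x, F x ^ 2 ∂ν) - (∫ x, F x ∂ν) ^ 2 := by
  obtain ⟨ε, θ0, cT, hε, hθ0, hcT, HT⟩ := hT p hp
  refine ⟨cT, hcT, fun k r ν hν hr hcr => ?_⟩
  unfold CR at hcr
  push Not at hcr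
  obtain ⟨Bd, hBdm, hBdp, hBd2⟩ := hcr
  obtain ⟨F, hF, hF1, hFL, hF2⟩ := HT k r ν Bd hν hr hBdm hBdp hBd2
  obtain ⟨-, -, B, hB, hpb⟩ := hL k ν hν
  refine ⟨F, hF, hF1, hFL, hF2 B ν hpb ?_⟩
  rw [aff_self (by positivity) hB hpb, sub_self]
  exact hθ0.le

/-! ### the chain, upwards -/

theorem chain_up (hI : S_IVT) {p η : ℝ} (hη : 0 < η)
    (HP : ∀ M ρ : ℝ, 0 < M → 0 < ρ → ∃ ρ' : ℝ, 0 < ρ' ∧
      ∀ (k : ℕ) (νa νb : Measure (E k)) (s : ℝ), LCI νa → LCI νb → 0 < s →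
      (∀ v : E k, (∫ x, ⟪x, v⟫_ℝ ^ 2 ∂νa) - (∫ x, ⟪x, v⟫_ℝ ∂νa) ^ 2 ≤ M * s * ‖v‖ ^ 2) →
      (∀ v : E k, (∫ x, ⟪x, v⟫_ℝ ^ 2 ∂νb) - (∫ x, ⟪x, v⟫_ℝ ∂νb) ^ 2 ≤ M * s * ‖v‖ ^ 2) →
      (∀ v : E k, ((∫ x, ⟪x, v⟫_ℝ ∂νb) - ∫ x, ⟪x, v⟫_ℝ ∂νa) ^ 2 ≤ M * s * ‖v‖ ^ 2) →
      (∀ h, 0 < h → PLH h η νa νb) → CR νb p (ρ * Real.sqrt s) → CR νa p (ρ' * Real.sqrt s))
    (d : ℕ) {ε : ℝ} (hε : 0 < ε) (j : ℕ) : ∀ ρ0 : ℝ, 0 < ρ0 → ∃ ρ1 : ℝ, 0 < ρ1 ∧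
    ∀ (N k : ℕ) (K : Set (E N × E d)) (T : E N × E d →ₗ[ℝ] E k) (s : ℝ) (ts tm : E d), CB K →
    0 < s → (∀ θ : E k, ‖θ‖ = 1 →
      (∫ z, ⟪T z, θ⟫_ℝ ^ 2 ∂(un K)) - (∫ z, ⟪T z, θ⟫_ℝ ∂(un K)) ^ 2 ≤ s) →
    0 < Rv K tm → (∀ t, Rv K t ≤ Rv K tm) → ε * Rv K tm ≤ Rv K ts →
    Rv K tm ≤ (1 + η) ^ j * Rv K ts → CR (lw K T ts) p (ρ0 * Real.sqrt s) →
    CR (lw K T tm) p (ρ1 * Real.sqrt s) := by
  obtain ⟨M, hM⟩ : ∃ M : ℝ, M = 4 * (36 * 4 ^ d / ε) := ⟨_, rfl⟩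
  have hM0 : 0 < M := by rw [hM]; positivity
  -- one step
  have step : ∀ ρ : ℝ, 0 < ρ → ∃ ρ' : ℝ, 0 < ρ' ∧
      ∀ (N k : ℕ) (K : Set (E N × E d)) (T : E N × E d →ₗ[ℝ] E k) (s : ℝ) (ts tm : E d) (x : ℝ),
      CB K → 0 < s → (∀ θ : E k, ‖θ‖ = 1 →
        (∫ z, ⟪T z, θ⟫_ℝ ^ 2 ∂(un K)) - (∫ z, ⟪T z, θ⟫_ℝ ∂(un K)) ^ 2 ≤ s) →
      0 < Rv K tm → (∀ t, Rv K t ≤ Rv K tm) → ε * Rv K tm ≤ Rv K ts → 0 ≤ x → x ≤ 1 →
      Rv K (ts + x • (tm - ts)) ≤ (1 + η) * Rv K ts →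
      CR (lw K T ts) p (ρ * Real.sqrt s) →
      CR (lw K T (ts + x • (tm - ts))) p (ρ' * Real.sqrt s) := by
    intro ρ hρ
    obtain ⟨ρ', hρ', H⟩ := HP M ρ hM0 hρ
    refine ⟨ρ', hρ', fun N k K T s ts tm x hK hs hvar hpm hm hts hx hx1 hr hcr => ?_⟩
    have hp : 0 < Rv K ts := lt_of_lt_of_le (by positivity) hts
    have hge : Rv K ts ≤ Rv K (ts + x • (tm - ts)) := by
      have h1 := seg_mono hK (ts := ts) hm hx hx1
      rwa [zero_smul, add_zero] at h1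
    have hb1 := fib_mom Pool.Agent.R755.KF.mom hK T hs.le hpm hε hm hvar hts
    have hb2 := fib_mom Pool.Agent.R755.KF.mom hK T hs.le hpm hε hm hvar (hts.trans hge)
    have hM1 : 36 * 4 ^ d / ε ≤ M := by
      rw [hM]
      have : 0 < 36 * 4 ^ d / ε := by positivity
      linarith
    have hle : ∀ v : E k, 36 * 4 ^ d / ε * s * ‖v‖ ^ 2 ≤ M * s * ‖v‖ ^ 2 := fun v =>
      mul_le_mul_of_nonneg_right (mul_le_mul_of_nonneg_right hM1 hs.le) (sq_nonneg _)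
    refine H k _ _ s (lci_lw hK T (hp.trans_le hge)) (lci_lw hK T hp) hs
      (fun v => (hb2 v).1.trans (hle v)) (fun v => (hb1 v).1.trans (hle v)) (fun v => ?_)
      (fun h hh => plh_symm (seg_plh hK T hp hm hη.le hx hx1 hr hh)) hcr
    have h1 := (hb1 v).2
    have h2 := (hb2 v).2
    obtain ⟨a, ha⟩ : ∃ a, a = ∫ y, ⟪y, v⟫_ℝ ∂(lw K T ts) := ⟨_, rfl⟩
    obtain ⟨b, hb⟩ : ∃ b, b = ∫ y, ⟪y, v⟫_ℝ ∂(lw K T (ts + x • (tm - ts))) := ⟨_, rfl⟩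
    obtain ⟨c, hc⟩ : ∃ c, c = ∫ z, ⟪T z, v⟫_ℝ ∂(un K) := ⟨_, rfl⟩
    rw [← ha, ← hc] at h1
    rw [← hb, ← hc] at h2
    rw [← ha, ← hb, hM]
    nlinarith [sq_nonneg ((a - c) + (b - c))]
  induction j with
  | zero =>
    intro ρ0 hρ0
    obtain ⟨ρz, hρz, Hz⟩ := step ρ0 hρ0
    refine ⟨ρz, hρz, fun N k K T s ts tm hK hs hvar hpm hm hts hj hcr => ?_⟩
    have hp : 0 < Rv K ts := lt_of_lt_of_le (by positivity) hts
    rw [pow_zero, one_mul] at hj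
    have e1 : ts + (1 : ℝ) • (tm - ts) = tm := by rw [one_smul]; abel
    have h3 := Hz N k K T s ts tm 1 hK hs hvar hpm hm hts zero_le_one le_rfl (by
      rw [e1]
      nlinarith) hcr
    rwa [e1] at h3
  | succ j ih =>
    intro ρ0 hρ0
    obtain ⟨ρz, hρz, Hz⟩ := step ρ0 hρ0
    obtain ⟨ρ2, hρ2, H2⟩ := ih ρz hρz
    refine ⟨max ρz ρ2, lt_max_of_lt_left hρz,
      fun N k K T s ts tm hK hs hvar hpm hm hts hj hcr => ?_⟩
    have hp : 0 < Rv K ts := lt_of_lt_of_le (by positivity) hts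
    have hpr := lw_prob hK T hpm
    have hss : 0 ≤ Real.sqrt s := Real.sqrt_nonneg s
    by_cases hc : Rv K tm ≤ (1 + η) * Rv K ts
    · have e1 : ts + (1 : ℝ) • (tm - ts) = tm := by rw [one_smul]; abel
      have h3 := Hz N k K T s ts tm 1 hK hs hvar hpm hm hts zero_le_one le_rfl (by rwa [e1]) hcr
      rw [e1] at h3
      exact cr_mono le_rfl (mul_le_mul_of_nonneg_right (le_max_left _ _) hss) h3
    · push Not at hc
      have hge : Rv K ts ≤ (1 + η) * Rv K ts := by nlinarith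
      obtain ⟨x, hx0, hx1, hx⟩ := hI N d K ts tm ((1 + η) * Rv K ts) hK hp hm hge hc.le
      have h5 := Hz N k K T s ts tm x hK hs hvar hpm hm hts hx0 hx1 hx.le hcr
      have h4 := H2 N k K T s (ts + x • (tm - ts)) tm hK hs hvar hpm hm
        (by rw [hx]; exact hts.trans hge) (by
          rw [hx]
          calc Rv K tm ≤ (1 + η) ^ (j + 1) * Rv K ts := hj
            _ = (1 + η) ^ j * ((1 + η) * Rv K ts) := by ring) h5
      exact cr_mono le_rfl (mul_le_mul_of_nonneg_right (le_max_right _ _) hss) h4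

/-! ### the theorem -/

theorem f2f (hX : S_MXF) (hI : S_IVT) (hR : S_REGC) (hN : S_NEAR) (hT : S_TRF)
    (hM4 : S_M4L) (hL : S_LCI) : S_F2F := by
  intro d ε hε
  obtain ⟨p0, hp0, HP⟩ := pair hN hT hM4 hL
  obtain ⟨pM, C4, hpM, -, hC4, HM⟩ := hM4
  obtain ⟨p, hp⟩ : ∃ p : ℝ, p = min p0 pM := ⟨_, rfl⟩
  have hpp : 0 < p := by rw [hp]; exact lt_min hp0 hpM
  have hpM' : p ≤ pM := by rw [hp]; exact min_le_right _ _
  obtain ⟨η, hη, HP1⟩ := HP p hpp (by rw [hp]; exact min_le_left _ _)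
  obtain ⟨c, hc, Hs⟩ := trf_self hT hL p hpp
  obtain ⟨Creg, hCreg, HR⟩ := hR d (max 1 ε⁻¹) (le_max_left _ _)
  obtain ⟨j, hj⟩ : ∃ j : ℕ, ε⁻¹ < (1 + η) ^ j := pow_unbounded_of_one_lt _ (by linarith)
  refine ⟨c / 2, by positivity, fun κ' δ hκ' hδ => ?_⟩
  obtain ⟨M, hM⟩ : ∃ M : ℝ, M = 36 * 4 ^ d / ε := ⟨_, rfl⟩
  have hM0 : 0 < M := by rw [hM]; positivity
  have hsM : 0 < Real.sqrt M := Real.sqrt_pos.2 hM0
  obtain ⟨ρ0, hρ0⟩ : ∃ ρ0 : ℝ, ρ0 = 4 * Real.sqrt M / κ' := ⟨_, rfl⟩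
  have hρ00 : 0 < ρ0 := by rw [hρ0]; positivity
  obtain ⟨ρ1, hρ1, Hu⟩ := chain_up hI hη HP1 d hε j ρ0 hρ00
  obtain ⟨ρ2, hρ2, Hc⟩ := chain hI hη HP1 d hε hρ1 j
  obtain ⟨κ, hκ⟩ : ∃ κ : ℝ, κ = Real.sqrt (δ / (Real.sqrt C4 * ρ2 ^ 2 * Creg)) := ⟨_, rfl⟩
  have h4 : 0 < Real.sqrt C4 := Real.sqrt_pos.2 hC4
  have hκ0 : 0 < κ := by rw [hκ]; exact Real.sqrt_pos.2 (by positivity)
  have hκ2 : κ ^ 2 = δ / (Real.sqrt C4 * ρ2 ^ 2 * Creg) := by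
    rw [hκ, Real.sq_sqrt (by positivity)]
  refine ⟨κ, hκ0, fun N K t0 t1 hK hlar0 hlar1 hcc => ?_⟩
  obtain ⟨tm, hpm, hm⟩ := hX N d K hK
  have hts0 : ε * Rv K tm ≤ Rv K t0 := hlar0 tm
  have hts1 : ε * Rv K tm ≤ Rv K t1 := hlar1 tm
  have hpos0 : 0 < Rv K t0 := lt_of_lt_of_le (by positivity) hts0
  have hpos1 : 0 < Rv K t1 := lt_of_lt_of_le (by positivity) hts1
  have hjj : ∀ t, ε * Rv K tm ≤ Rv K t → Rv K tm ≤ (1 + η) ^ j * Rv K t := by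
    intro t ht
    have h1 : 1 ≤ ε * (1 + η) ^ j := by
      have := mul_le_mul_of_nonneg_left hj.le hε.le
      rwa [mul_inv_cancel₀ hε.ne'] at this
    calc Rv K tm = 1 * Rv K tm := (one_mul _).symm
      _ ≤ ε * (1 + η) ^ j * Rv K tm := mul_le_mul_of_nonneg_right h1 hpm.le
      _ = (1 + η) ^ j * (ε * Rv K tm) := by ring
      _ ≤ (1 + η) ^ j * Rv K t := mul_le_mul_of_nonneg_left ht (by positivity)
  intro k hk P s hs hvar v hv hv1 hvL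
  have hms := sl_meas hK t1
  have hms0 := sl_meas hK t0
  have hvar' : ∀ θ : E k, ‖θ‖ = 1 →
      (∫ x, ⟪P x, θ⟫_ℝ ^ 2 ∂(un (sl K t1))) - (∫ x, ⟪P x, θ⟫_ℝ ∂(un (sl K t1))) ^ 2 ≤ s := by
    intro θ hθ
    have h1 := hvar θ hθ
    rwa [Pool.Agent.R754.KG.VW_ind hms] at h1
  obtain ⟨B, hB⟩ := HR N k K t1 hK hpos1 (fun t => by
    have h1 := hlar1 t
    have h2 : Rv K t ≤ ε⁻¹ * Rv K t1 := by
      rw [← div_eq_inv_mul, le_div_iff₀ hε]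
      linarith
    exact h2.trans (mul_le_mul_of_nonneg_right (le_max_right _ _) hpos1.le)) P s hs.le hvar'
  obtain ⟨T, hTd⟩ : ∃ T : E N × E d →ₗ[ℝ] E k, T = P ∘ₗ LinearMap.fst ℝ (E N) (E d) -
      B ∘ₗ LinearMap.snd ℝ (E N) (E d) := ⟨_, rfl⟩
  have hTz : ∀ z, T z = P z.1 - B z.2 := fun z => by rw [hTd]; simp
  obtain ⟨s1, hs1⟩ : ∃ s1 : ℝ, s1 = Creg * s := ⟨_, rfl⟩
  have hs10 : 0 < s1 := by rw [hs1]; positivity
  have hTvar : ∀ θ : E k, ‖θ‖ = 1 →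
      (∫ z, ⟪T z, θ⟫_ℝ ^ 2 ∂(un K)) - (∫ z, ⟪T z, θ⟫_ℝ ∂(un K)) ^ 2 ≤ s1 := by
    intro θ hθ
    simp only [hTz]
    rw [hs1]
    exact hB θ hθ
  have hss1 : 0 < Real.sqrt s1 := Real.sqrt_pos.2 hs10
  -- the fibre over `t0`
  have hcr0 : CR (lw K T t0) p (ρ0 * Real.sqrt s1) := by
    by_contra hne
    obtain ⟨F, hF, hF1, hFL, hFv⟩ := Hs k (ρ0 * Real.sqrt s1) (lw K T t0) (lci_lw hK T hpos0)
      (by positivity) hne
    have hfm := fib_mom Pool.Agent.R755.KF.mom hK T hs10.le hpm hε hm hTvar hts0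
    rw [← hM] at hfm
    have hPc : Continuous P := P.continuous_of_finiteDimensional
    have hpr0 := sv_prob hK hpos0
    have h1 := hcc k hk P (M * s1) (by positivity) (fun θ hθ => by
      rw [Pool.Agent.R754.KG.VW_ind hms0]
      have h2 := (hfm θ).1
      have hcy : Continuous fun y : E k => ⟪y, θ⟫_ℝ := by fun_prop
      have hcy2 : Continuous fun y : E k => ⟪y, θ⟫_ℝ ^ 2 := by fun_prop
      rw [hθ, one_pow, mul_one, lw_int T t0 hcy2, lw_int T t0 hcy] at h2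
      refine le_trans (le_of_eq ?_) h2
      have hc1 : Continuous fun x => ⟪P x, θ⟫_ℝ := by fun_prop
      have i1 := sv_int hK hpos0 hc1
      have i2 := sv_int hK hpos0 (hc1.pow 2)
      have e1 := var_le_mom i1 i2 (⟪B t0, θ⟫_ℝ)
      have e2 : ∀ x, ⟪T (x, t0), θ⟫_ℝ = ⟪P x, θ⟫_ℝ - ⟪B t0, θ⟫_ℝ := fun x => by
        rw [hTz, inner_sub_left]
      simp only [e2]
      rw [← e1, integral_sub i1 (integrable_const _), integral_const, probReal_univ, one_smul]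
      ring) (fun y => F (y + -B t0)) (hF.comp (contDiff_id.add contDiff_const))
      (fun y => hF1 _) (fun y => by
        rw [fderiv_comp_add_right]
        refine (hFL _).trans (le_of_eq ?_)
        rw [hρ0, Real.sqrt_mul hM0.le]
        field_simp)
    rw [Pool.Agent.R754.KG.VW_ind hms0] at h1
    have hF2c : Continuous fun y => F y ^ 2 := hF.continuous.pow 2
    rw [lw_int T t0 hF2c, lw_int T t0 hF.continuous] at hFv
    have e3 : ∀ x, F (T (x, t0)) = F (P x + -B t0) := fun x => by rw [hTz, sub_eq_add_neg]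
    simp only [e3] at hFv
    linarith
  have hcm := Hu N k K T s1 t0 tm hK hs10 hTvar hpm hm hts0 (hjj t0 hts0) hcr0
  have hcs := Hc N k K T s1 t1 tm hK hs10 hTvar hpm hm hts1 (hjj t1 hts1) hcm
  have hlci := lci_lw hK T hpos1
  obtain ⟨hpls, -, B1, -, hpb⟩ := hL k _ hlci
  have hpr := hpb.prob
  have hss : 0 < Real.sqrt s := Real.sqrt_pos.2 hs
  obtain ⟨v', hv'⟩ : ∃ v' : E k → ℝ, v' = fun y => v (y + B t1) := ⟨_, rfl⟩
  have hv'c : ContDiff ℝ 1 v' := by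
    rw [hv']
    exact hv.comp (contDiff_id.add contDiff_const)
  have hv'L : ∀ y, ‖fderiv ℝ v' y‖ ≤ κ / Real.sqrt s := by
    intro y
    rw [hv', fderiv_comp_add_right]
    exact hvL _
  have key := var_of_m4 hpb (L := κ / Real.sqrt s) (by positivity) hC4
    (ρ := ρ2 * Real.sqrt s1) (by positivity)
    (fun f hf hf1 => HM k (lw K T t1) B1 (ρ2 * Real.sqrt s1) hpb hpls (by positivity)
      (cr_mono hpM' le_rfl hcs) f hf hf1)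
    hv'c (fun y => by rw [hv']; exact hv1 _) hv'L
  have hv'2 : Continuous fun y => v' y ^ 2 := hv'c.continuous.pow 2
  rw [lw_int T t1 hv'2, lw_int T t1 hv'c.continuous] at key
  have e1 : ∀ x, v' (T (x, t1)) = v (P x) := fun x => by
    rw [hv', hTz]
    simp
  simp only [e1] at key
  rw [Pool.Agent.R754.KG.VW_ind hms]
  refine key.trans ?_
  rw [div_pow, mul_pow, Real.sq_sqrt hs.le, Real.sq_sqrt hs10.le, hκ2, hs1]
  have e2 : Real.sqrt C4 * (δ / (Real.sqrt C4 * ρ2 ^ 2 * Creg) / s * (ρ2 ^ 2 * (Creg * s))) =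
      δ := by
    field_simp
  rw [e2]

/-- the body, from one large fibre -/
theorem one (hF : S_F2F) (hC : S_CCL) : S_ONE := by
  intro d ε δ hε hδ
  obtain ⟨ε1, δ1, hε1, hδ1, H1⟩ := hC d δ hδ
  obtain ⟨δ', hδ', H2⟩ := hF d (min ε ε1) (lt_min hε hε1)
  refine ⟨δ', hδ', fun κ' hκ' => ?_⟩
  obtain ⟨κ2, hκ2, H3⟩ := H2 κ' δ1 hκ' hδ1
  obtain ⟨κ, hκ, H4⟩ := H1 κ2 hκ2
  refine ⟨κ, hκ, fun N n e K t0 hK hlar hcc => H4 N n e K hK fun t ht => ?_⟩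
  have h0 : ∀ t, 0 ≤ Rv K t := fun t => ENNReal.toReal_nonneg
  exact H3 N K t0 t hK
    (fun t' => (mul_le_mul_of_nonneg_right (min_le_left _ _) (h0 t')).trans (hlar t'))
    (fun t' => (mul_le_mul_of_nonneg_right (min_le_right _ _) (h0 t')).trans (ht t')) hcc

end Pool.Agent.N483.KM
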