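import Pool.Agent.H59.L.T374d34.N483.KM.Near
import Pool.Agent.H59.L.T374d34.N483.KM.Sec2
import Pool.Agent.H59.L.T374d34.N483.KM.Res4
import Pool.Agent.H59.L.T374d34.N483.KM.RegC
import Pool.Agent.H59.L.T374d34.N123.KM.LCI
import Pool.Agent.H59.L.T374d34.N456.KM.CPL
import Pool.Agent.H59.L.T374d34.N868.KM.Shf
import Pool.Agent.H59.L.T374d34.N488.KM.Step
import Pool.Agent.H59.L.T374d34.N157.KM.All
import Pool.Agent.H59.L.T374d34.N833.KM.M4L
import Pool.Agent.H59.L.T374d34.N401.KM.BLI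
import Pool.Agent.H59.L.T374d34.N692.KM.Pst
import Pool.Agent.H59.L.T374d34.N342.KM.Str
import Pool.Agent.H59.L.T374d34.N277.KM.WPM
import Pool.Agent.H59.L.T374d34.N123.KM.VARL
import Pool.Agent.H59.L.T374d34.N523.KM.CLL
import Pool.Agent.H59.L.T374d34.N523.KM.LRG
import Pool.Agent.H59.L.T374d34.N488.KM.DA1
import Pool.Agent.H59.L.T374d34.N264.KM.DA2
import Pool.Agent.H59.L.T374d34.N546.KM.DWN
import Pool.Agent.H59.L.T374d34.N523.KM.AFB
import Pool.Agent.H59.L.T374d34.N521.KM.Trf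
import Pool.Agent.H59.L.T374d34.N383.KM.Winc
import Pool.Agent.H59.L.T374d34.N152.KM.FDN
import Pool.Agent.H59.L.T374d34.N306.KM.Bar

/-!
# Sections: assembly
-/

set_option autoImplicit false

namespace Pool.Agent.N483.KM

open MeasureTheory Set Filter Topology
open scoped ENNReal InnerProductSpace

theorem lciR : S_LCI := Pool.Agent.N123.KM.t_LCI
theorem allR : S_ALL :=
  Pool.Agent.N157.KM.t_ALL (Pool.Agent.N488.KM.t_STEP Pool.Agent.N456.KM.t_CPL
    Pool.Agent.N868.KM.Shf.t_SHF)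
theorem m4lR : S_M4L := Pool.Agent.N833.KM.t_M4L allR
theorem strR : S_STR := Pool.Agent.N342.KM.t_STR (Pool.Agent.N692.KM.t_PST
  Pool.Agent.N401.KM.t_BLI) lciR
theorem wpmR : S_WPM := Pool.Agent.N277.KM.t_WPM lciR strR m4lR
theorem lrgR : S_LRG := Pool.Agent.N523.KM.t_LRG (Pool.Agent.N523.KM.t_CLL
  Pool.Agent.N123.KM.t_VARL)

theorem dafR : S_DAF := by
  intro k B h νa νb hh hB ha hb
  obtain ⟨h1, h2⟩ := Pool.Agent.N264.KM.t_DA2 k B h νa νb hh hB ha hb
  refine ⟨h1, ?_⟩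
  have h3 := Pool.Agent.N488.KM.t_DA1 k B h νa νb hh hB ha hb
  rw [h2] at h3
  convert h3 using 1
  ring

theorem dwnR : S_DWN := Pool.Agent.N546.KM.t_DWN dafR
theorem nearR : S_NEAR := near wpmR lrgR dwnR lciR
theorem trfR : S_TRF := Pool.Agent.N521.KM.t_TRF Pool.Agent.N523.KM.t_AFB lciR
theorem wincR : S_WINC := Pool.Agent.N383.KM.t_WINC
theorem regcR : S_REGC := t_REGC Pool.Agent.N152.KM.t_FDN t_RESC
theorem barR : S_BAR := Pool.Agent.N306.KM.t_BAR

theorem seccR : S_SECC := secc wincR regcR nearR trfR m4lR lciR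

theorem sece_of (hX : S_MXF) (hI : S_IVT) : S_SECE :=
  sece hX hI wincR regcR nearR trfR m4lR lciR

end Pool.Agent.N483.KM
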