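import Pool.Agent.H59.L.T374d34.N483.KM.Stm

/-!
# Intersections of generalised Orlicz balls: statements
-/

set_option autoImplicit false

namespace Pool.Agent.N483.KM

open MeasureTheory Set Filter Topology
open scoped ENNReal InnerProductSpace
open Pool.Agent.R754.KG (E un sl Rv)
open Pool.Agent.R755.KF (CB)

/-- the set where `∑ i, V j i (x i) ≤ s j` for all `j` -/
def SL {r n : ℕ} (V : Fin r → Fin n → ℝ → ℝ) (s : Fin r → ℝ) : Set (E n) :=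
  {x | ∀ j, ∑ i, V j i (x i) ≤ s j}

/-- O1: bounded sublevel sets -/
def S_OBD : Prop := ∀ (r n : ℕ) (V : Fin r → Fin n → ℝ → ℝ) (e s : Fin r → ℝ),
  (∀ j i, ConvexOn ℝ univ (V j i)) → Bornology.IsBounded (SL V e) → (SL V e).Nonempty →
  Bornology.IsBounded (SL V s)

/-- O2: supporting functionals -/
def S_OSUP : Prop := ∀ (r n : ℕ) (V : Fin r → Fin n → ℝ → ℝ) (e : Fin r → ℝ), 1 ≤ n →
  (∀ j i, ConvexOn ℝ univ (V j i)) → Bornology.IsBounded (SL V e) →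
  (∃ x : E n, ∀ j, ∑ i, V j i (x i) < e j) →
  ∃ l : Fin r → ℝ, (∀ j, 0 ≤ l j) ∧ (∃ j, l j ≠ 0) ∧
  ∀ s : Fin r → ℝ, ∑ j, l j * s j ≤ ∑ j, l j * e j → volume (SL V s) ≤ volume (SL V e)

/-- O3: the lift -/
def S_OLF : Prop := ∀ (r n : ℕ) (V : Fin r → Fin n → ℝ → ℝ) (e : Fin r → ℝ), 1 ≤ n →
  (∀ j i, ConvexOn ℝ univ (V j i)) → (∀ j i t, 0 ≤ V j i t) → Bornology.IsBounded (SL V e) →
  (∃ x : E n, ∀ j, ∑ i, V j i (x i) < e j) →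
  ∃ (m : ℕ) (L : Set (E n × E m)) (ts : E m) (W : Fin n → ℝ → ℝ) (F : ℝ), m ≤ r ∧ CB L ∧
    (∀ t, Rv L t ≤ Rv L ts) ∧ sl L ts = SL V e ∧ (∀ i, ConvexOn ℝ univ (W i)) ∧
    Prod.fst '' L = {x : E n | ∑ i, W i (x i) ≤ F}

/-- convex lower semicontinuous functions with values in `[0, ∞]` -/
structure XC (V : ℝ → ℝ≥0∞) : Prop where
  lsc : LowerSemicontinuous V
  conv : ∀ x y t : ℝ, 0 < t → t < 1 →
    V ((1 - t) * x + t * y) ≤ ENNReal.ofReal (1 - t) * V x + ENNReal.ofReal t * V y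

/-- O4: approximation -/
def S_OAP : Prop := ∀ (r n : ℕ) (V : Fin r → Fin n → ℝ → ℝ≥0∞) (e : Fin r → ℝ≥0∞),
  (∀ j i, XC (V j i)) → Bornology.IsBounded {x : E n | ∀ j, ∑ i, V j i (x i) ≤ e j} →
  {x : E n | ∀ j, ∑ i, V j i (x i) ≤ e j}.Nonempty →
  ∃ (U : ℕ → Fin r → Fin n → ℝ → ℝ) (f : ℕ → Fin r → ℝ),
    (∀ m j i, ConvexOn ℝ univ (U m j i)) ∧ (∀ m j i t, 0 ≤ U m j i t) ∧
    (∀ m, Bornology.IsBounded (SL (U m) (f m))) ∧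
    (∀ m, ∃ x : E n, ∀ j, ∑ i, U m j i (x i) < f m j) ∧
    (∀ m, SL (U (m + 1)) (f (m + 1)) ⊆ SL (U m) (f m)) ∧
    ⋂ m, SL (U m) (f m) = {x : E n | ∀ j, ∑ i, V j i (x i) ≤ e j}

/-- O5: real valued functions -/
def S_ORE : Prop := ∀ (r n : ℕ) (V : Fin r → Fin n → ℝ → ℝ) (e : Fin r → ℝ),
  (∀ j i, ConvexOn ℝ univ (V j i)) → Bornology.IsBounded (SL V e) → (SL V e).Nonempty →
  ∃ (W : Fin r → Fin n → ℝ → ℝ≥0∞) (f : Fin r → ℝ≥0∞), (∀ j i, XC (W j i)) ∧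
    SL V e = {x : E n | ∀ j, ∑ i, W j i (x i) ≤ f j}

end Pool.Agent.N483.KM
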