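import Pool.Agent.H59.L.T374d34.N483.KM.Stm2
import Pool.Agent.H59.L.T374d34.N483.KM.StmO

/-!
# Sections: more statements
-/

set_option autoImplicit false

namespace Pool.Agent.N483.KM

open MeasureTheory Set Filter Topology
open scoped ENNReal InnerProductSpace
open Pool.Agent.R754.KG (E un sl Rv)
open Pool.Agent.R755.KF (CB)
open Pool.Agent.Y506.PV (CcW ind)

/-- E1: fibres of maximal volume -/
def S_MXF : Prop := ∀ (N d : ℕ) (K : Set (E N × E d)), CB K →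
  ∃ tm : E d, 0 < Rv K tm ∧ ∀ t, Rv K t ≤ Rv K tm

/-- E2: fibres of a given volume -/
def S_IVT : Prop := ∀ (N d : ℕ) (K : Set (E N × E d)) (ts tm : E d) (v : ℝ), CB K →
  0 < Rv K ts → (∀ t, Rv K t ≤ Rv K tm) → Rv K ts ≤ v → v ≤ Rv K tm →
  ∃ x : ℝ, 0 ≤ x ∧ x ≤ 1 ∧ Rv K (ts + x • (tm - ts)) = v

/-- E3: concentration for sections of large volume -/
def S_SECE : Prop := ∀ (d : ℕ) (ε : ℝ), 0 < ε → ∃ δ' : ℝ, 0 < δ' ∧ ∀ κ' δ : ℝ, 0 < κ' → 0 < δ →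
  ∃ κ : ℝ, 0 < κ ∧ ∀ (N n : ℕ) (e : (E N × E d) ≃ₗ[ℝ] E n) (K : Set (E N × E d)) (ts : E d), CB K →
  (∀ t, ε * Rv K t ≤ Rv K ts) → CcW κ' δ' (ind (e '' K)) → CcW κ δ (ind (sl K ts))

/-- the set where `∑ i, V j i (x i) ≤ e j` for all `j`, for functions with values in `[0, ∞]` -/
def SX {r n : ℕ} (V : Fin r → Fin n → ℝ → ℝ≥0∞) (e : Fin r → ℝ≥0∞) : Set (E n) :=
  {x | ∀ j, ∑ i, V j i (x i) ≤ e j}

/-- O6: concentration for intersections of generalised Orlicz balls, real valued functions -/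
def S_ORR : Prop := ∀ (r : ℕ) (δ : ℝ), 0 < δ → ∃ κ : ℝ, 0 < κ ∧
  ∀ (n : ℕ) (V : Fin r → Fin n → ℝ → ℝ) (e : Fin r → ℝ), 1 ≤ n → (∀ j i, ConvexOn ℝ univ (V j i)) →
  (∀ j i t, 0 ≤ V j i t) → Bornology.IsBounded (SL V e) →
  (∃ x : E n, ∀ j, ∑ i, V j i (x i) < e j) → CcW κ δ (ind (SL V e))

/-- O7: concentration for intersections of generalised Orlicz balls -/
def S_ORX : Prop := ∀ (r : ℕ) (δ : ℝ), 0 < δ → ∃ κ : ℝ, 0 < κ ∧
  ∀ (n : ℕ) (V : Fin r → Fin n → ℝ → ℝ≥0∞) (e : Fin r → ℝ≥0∞), (∀ j i, XC (V j i)) →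
  Bornology.IsBounded (SX V e) → (interior (SX V e)).Nonempty →
  IsCompact (SX V e) ∧ Convex ℝ (SX V e) ∧ CcW κ δ (ind (SX V e))

end Pool.Agent.N483.KM
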